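import Pool.Agent.Q195.CW4

set_option autoImplicit false

open Pool.Agent.Q195.QD

namespace Pool.Agent.Results.MP_142f15_an.NoUniformQGLC

/-- In the real Banach space `l_1` there is, for every real `L`, a nearly unconditional basis that is
not `L`-QGLC under any equivalent norm. -/
theorem result : ∀ L : ℝ, FailsRenorming (lp (fun _ : ℕ => ℝ) 1) L :=
  Pool.Agent.Q195.CW.final

end Pool.Agent.Results.MP_142f15_an.NoUniformQGLC
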